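import Pool.Agent.Zk72.NS.Shp
import Pool.Agent.Zk25.NS.CUT

/-! Module MATCH: two curves which pass through the same points in the same order. -/

set_option autoImplicit false

namespace Pool.Agent.Zk76.NS

open H974 Finset H342P H984P H984N



/-- the curve stays near a point -/
theorem seg_close {N : ℕ} {p : ℕ → ℂ} (t : unitInterval) (b : ℕ) (x : ℝ)
    (hN : 0 < N) (hb : (b : ℝ) ≤ t * N) (S : ℕ → Prop)
    (hS : ∀ c, S c → c ≤ b ∨ (t : ℝ) * N ≤ c)
    (hj : ∀ j, b ≤ j → j ≤ N → (∀ c, S c → c ≤ b ∨ j ≤ c) → dist (p j) (p b) ≤ x) :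
    dist (pl N p t) (p b) ≤ x := by
  have hN0 : (0 : ℝ) < N := by exact_mod_cast hN
  have ht1 : (t : ℝ) ≤ 1 := t.2.2
  have ht0 : (0 : ℝ) ≤ t := t.2.1
  have hle : (t : ℝ) * N ≤ N := by nlinarith
  rcases eq_or_lt_of_le hle with h | h
  · have h1 : t = 1 := by
      apply Subtype.ext
      have : (t : ℝ) * N = 1 * N := by rw [h, one_mul]
      exact mul_right_cancel₀ hN0.ne' this
    rw [h1, pl_one]
    have hbN : b ≤ N := by
      have : (b : ℝ) ≤ N := hb.trans hle
      exact_mod_cast this
    refine hj N hbN le_rfl fun c hc => ?_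
    rcases hS c hc with h2 | h2
    · exact Or.inl h2
    · right
      rw [h] at h2
      exact_mod_cast h2
  · set l := ⌊(t : ℝ) * N⌋₊ with hl
    have hl1 : (l : ℝ) ≤ t * N := Nat.floor_le (by positivity)
    have hl2 : (t : ℝ) * N < l + 1 := Nat.lt_floor_add_one _
    have hlN : l < N := by
      have : (l : ℝ) < N := lt_of_le_of_lt hl1 h
      exact_mod_cast this
    have hbl : b ≤ l := Nat.le_floor hb
    rw [pl_seg hlN hl1 hl2.le]
    have hc1 : dist (p l) (p b) ≤ x := by
      refine hj l hbl hlN.le fun c hc => ?_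
      rcases hS c hc with h2 | h2
      · exact Or.inl h2
      · right
        have : (l : ℝ) ≤ c := hl1.trans h2
        exact_mod_cast this
    rcases eq_or_lt_of_le hl1 with h3 | h3
    · rw [← h3, sub_self]
      simpa using hc1
    · have hc2 : dist (p (l + 1)) (p b) ≤ x := by
        refine hj (l + 1) (by omega) hlN fun c hc => ?_
        rcases hS c hc with h2 | h2
        · exact Or.inl h2
        · right
          have : (l : ℝ) < c := lt_of_lt_of_le h3 h2
          have : l < c := by exact_mod_cast this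
          omega
      have hconv := (convex_closedBall (p b) x).add_smul_sub_mem
        (Metric.mem_closedBall.mpr hc1) (Metric.mem_closedBall.mpr hc2)
        (t := (t : ℝ) * N - l) ⟨by linarith, by linarith⟩
      rw [Complex.real_smul] at hconv
      exact Metric.mem_closedBall.mp hconv

theorem clamp_mono : Monotone clamp := by
  intro x y h
  unfold clamp
  exact max_le_max_left _ (min_le_min_left _ h)

theorem t_MATCH : Pool.Agent.Zk72.NS.S_MATCH := by
  classical
  intro N N' p p' x R hx h00 hNN hR hlt hpp hp hp'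
  have hle : ∀ a b a' b', R a b → R a' b' → a ≤ a' → b ≤ b' := by
    intro a b a' b' h1 h2 h3
    by_contra h
    have := (hlt a' b' a b h2 h1).mpr (by omega)
    omega
  rcases Nat.eq_zero_or_pos N with hN | hN
  · have hN' : N' = 0 := by
      have := hlt 0 0 N N' h00 hNN
      omega
    subst hN hN'
    refine Pool.Agent.Zk25.NS.cdist_le_of_mono _ _ id continuous_id monotone_id rfl rfl _ fun t => ?_
    rw [pl_apply', pl_apply']
    simp only [range_zero, sum_empty, add_zero]
    rw [hpp 0 0 h00, dist_self]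
    positivity
  have hN' : 0 < N' := (hlt 0 0 N N' h00 hNN).mp hN
  have hN0 : (0 : ℝ) < N := by exact_mod_cast hN
  have hN'0 : (0 : ℝ) < N' := by exact_mod_cast hN'
  -- the step function
  set F : ℕ → Finset ℕ := fun j => (range (N' + 1)).filter (fun b => ∃ a, a ≤ j ∧ R a b) with hF
  set h : ℕ → ℕ := fun j => (F j).sup id with hh
  have hmono : Monotone h := by
    intro i j hij
    apply Finset.sup_mono
    intro b hb
    simp only [hF, mem_filter, mem_range] at hb ⊢
    obtain ⟨h1, a, h2, h3⟩ := hb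
    exact ⟨h1, a, h2.trans hij, h3⟩
  have hval : ∀ a b, R a b → h a = b := by
    intro a b hab
    apply le_antisymm
    · apply Finset.sup_le
      intro b' hb'
      simp only [hF, mem_filter, mem_range] at hb'
      obtain ⟨-, a', h2, h3⟩ := hb'
      exact hle a' b' a b h3 hab h2
    · have : b ∈ F a := by
        simp only [hF, mem_filter, mem_range]
        exact ⟨by have := (hR a b hab).2; omega, a, le_rfl, hab⟩
      exact Finset.le_sup (f := id) this
  have hex : ∀ j, ∃ a, a ≤ j ∧ R a (h j) := by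
    intro j
    have hne : (F j).Nonempty := ⟨0, by
      simp only [hF, mem_filter, mem_range]
      exact ⟨by omega, 0, Nat.zero_le _, h00⟩⟩
    obtain ⟨b, hb, hb2⟩ := Finset.exists_mem_eq_sup (F j) hne id
    have hb3 : h j = b := hb2
    simp only [hF, mem_filter, mem_range] at hb
    obtain ⟨-, a, h2, h3⟩ := hb
    exact ⟨a, h2, by rw [hb3]; exact h3⟩
  have h0 : h 0 = 0 := hval 0 0 h00
  have hNv : h N = N' := hval N N' hNN
  -- its interpolation
  set β : ℝ → ℝ := fun u => ∑ i ∈ range N, clamp (u - i) * ((h (i + 1) : ℝ) - h i) with hβ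
  have hβm : Monotone β := by
    intro u v huv
    refine Finset.sum_le_sum fun i _ => ?_
    have h1 : (h i : ℝ) ≤ h (i + 1) := by exact_mod_cast hmono (Nat.le_succ i)
    exact mul_le_mul_of_nonneg_right (clamp_mono (by linarith)) (by linarith)
  have hβ0 : β 0 = 0 := by
    refine Finset.sum_eq_zero fun i _ => ?_
    rw [pl_clamp_zero, zero_mul]
    have : (0 : ℝ) ≤ i := Nat.cast_nonneg i
    linarith
  have hβN : β N = N' := by
    have e1 : β N = ∑ i ∈ range N, ((h (i + 1) : ℝ) - h i) := by
      refine Finset.sum_congr rfl fun i hi => ?_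
      rw [pl_clamp_one, one_mul]
      have : (i : ℝ) + 1 ≤ N := by exact_mod_cast Finset.mem_range.mp hi
      linarith
    rw [e1, Finset.sum_range_sub (fun i => (h i : ℝ)), hNv, h0]
    simp
  have hβseg : ∀ (k : ℕ) (s : unitInterval), k < N → (k : ℝ) ≤ s * N → (s : ℝ) * N ≤ k + 1 →
      β (s * N) = h k + ((s : ℝ) * N - k) * ((h (k + 1) : ℝ) - h k) := by
    intro k s hk h1 h2
    have e1 : ((β (s * N) : ℝ) : ℂ) = pl N (fun i => ((h i : ℕ) : ℂ)) s := by
      rw [pl_apply']
      simp only [hβ, h0]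
      push_cast
      ring
    have e2 := pl_seg (p := fun i => ((h i : ℕ) : ℂ)) hk h1 h2
    rw [← e1] at e2
    have e3 : ((β (s * N) : ℝ) : ℂ) = ((h k + ((s : ℝ) * N - k) * ((h (k + 1) : ℝ) - h k) : ℝ) : ℂ) := by
      rw [e2]; push_cast; ring
    exact_mod_cast e3
  have hβc : Continuous β := by
    simp only [hβ]
    unfold clamp
    fun_prop
  have hsN : ∀ s : unitInterval, 0 ≤ (s : ℝ) * N ∧ (s : ℝ) * N ≤ N := fun s =>
    ⟨mul_nonneg s.2.1 hN0.le, by nlinarith [s.2.2]⟩
  let be : unitInterval → unitInterval := fun s => ⟨β (s * N) / N', by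
    constructor
    · apply div_nonneg _ hN'0.le
      rw [← hβ0]; exact hβm (hsN s).1
    · rw [div_le_one hN'0, ← hβN]; exact hβm (hsN s).2⟩
  have hbe : ∀ s, (be s : ℝ) * N' = β (s * N) := fun s => div_mul_cancel₀ _ hN'0.ne'
  refine Pool.Agent.Zk25.NS.cdist_le_of_mono _ _ be ?_ ?_ ?_ ?_ _ ?_
  · refine Continuous.subtype_mk ?_ _
    exact (hβc.comp (by fun_prop)).div_const _
  · intro s t hst
    have h1 : (s : ℝ) * N ≤ t * N := mul_le_mul_of_nonneg_right hst hN0.le
    show β (s * N) / N' ≤ β (t * N) / N'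
    exact div_le_div_of_nonneg_right (hβm h1) hN'0.le
  · apply Subtype.ext
    show β (((0 : unitInterval) : ℝ) * N) / N' = 0
    have e1 : ((0 : unitInterval) : ℝ) = 0 := rfl
    rw [e1, zero_mul, hβ0, zero_div]
  · apply Subtype.ext
    show β (((1 : unitInterval) : ℝ) * N) / N' = 1
    have e1 : ((1 : unitInterval) : ℝ) = 1 := rfl
    rw [e1, one_mul, hβN, div_self hN'0.ne']
  · intro t
    -- the segment of `t`
    obtain ⟨k, hk, hk1, hk2⟩ : ∃ k, k < N ∧ (k : ℝ) ≤ t * N ∧ (t : ℝ) * N ≤ k + 1 := by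
      rcases eq_or_lt_of_le (hsN t).2 with h1 | h1
      · refine ⟨N - 1, by omega, ?_, ?_⟩
        · rw [h1]; exact_mod_cast Nat.sub_le N 1
        · rw [h1]
          have : N - 1 + 1 = N := by omega
          exact_mod_cast this.ge
      · refine ⟨⌊(t : ℝ) * N⌋₊, ?_, Nat.floor_le (hsN t).1, (Nat.lt_floor_add_one _).le⟩
        have : ((⌊(t : ℝ) * N⌋₊ : ℕ) : ℝ) < N := lt_of_le_of_lt (Nat.floor_le (hsN t).1) h1
        exact_mod_cast this
    obtain ⟨a, hak, hRa⟩ := hex k
    have hmat : ∀ a' b', R a' b' → a' ≤ a ∨ k + 1 ≤ a' := by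
      intro a' b' h1
      by_contra hc
      push Not at hc
      have h2 : b' ≤ h k := by
        rw [← hval a' b' h1]; exact hmono (by omega)
      have h3 : h k < b' := (hlt a (h k) a' b' hRa h1).mp hc.1
      omega
    have hd1 : dist (pl N p t) (p a) ≤ x := by
      refine seg_close t a x hN ?_ (fun c => ∃ b', R c b') ?_ ?_
      · have : (a : ℝ) ≤ k := by exact_mod_cast hak
        linarith
      · rintro c ⟨b', hc⟩
        rcases hmat c b' hc with h1 | h1
        · exact Or.inl h1
        · right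
          have : (k : ℝ) + 1 ≤ c := by exact_mod_cast h1
          linarith
      · intro j h1 h2 h3
        exact hp a (h k) j hRa h1 h2 fun a' b' h4 => h3 a' ⟨b', h4⟩
    have hseg := hβseg k t hk hk1 hk2
    have hh1 : (h k : ℝ) ≤ h (k + 1) := by exact_mod_cast hmono (Nat.le_succ k)
    have hv1 : (h k : ℝ) ≤ be t * N' := by
      rw [hbe, hseg]
      have : 0 ≤ ((t : ℝ) * N - k) * ((h (k + 1) : ℝ) - h k) :=
        mul_nonneg (by linarith) (by linarith)
      linarith
    have hv2 : (be t : ℝ) * N' ≤ h (k + 1) := by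
      rw [hbe, hseg]
      have : ((t : ℝ) * N - k) * ((h (k + 1) : ℝ) - h k) ≤ 1 * ((h (k + 1) : ℝ) - h k) :=
        mul_le_mul_of_nonneg_right (by linarith) (by linarith)
      linarith
    have hd2 : dist (pl N' p' (be t)) (p' (h k)) ≤ x := by
      refine seg_close (be t) (h k) x hN' hv1 (fun c => ∃ a', R a' c) ?_ ?_
      · rintro c ⟨a', hc⟩
        rcases hmat a' c hc with h1 | h1
        · exact Or.inl (hle a' c a (h k) hc hRa h1)
        · right
          have h2 : h (k + 1) ≤ c := by
            rw [← hval a' c hc]; exact hmono h1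
          have : (h (k + 1) : ℝ) ≤ c := by exact_mod_cast h2
          linarith
      · intro j h1 h2 h3
        exact hp' a (h k) j hRa h1 h2 fun a' b' h4 => h3 b' ⟨a', h4⟩
    calc dist (pl N p t) (pl N' p' (be t)) ≤ dist (pl N p t) (p a) +
          dist (p a) (pl N' p' (be t)) := dist_triangle _ _ _
      _ ≤ x + x := by
          rw [hpp a (h k) hRa, dist_comm (p' (h k))]
          rw [hpp a (h k) hRa] at hd1
          exact add_le_add hd1 hd2
      _ = 2 * x := by ring

end Pool.Agent.Zk76.NS
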